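import Mathlib

/-!
# MP_e57dcf_an, Q1: weak phase retrievable frames with 2n-2 vectors are not dense

For every `n ≥ 2` the set of frames of `2n-2` vectors of `ℝⁿ` which do weak phase retrieval is
not dense in the set of all frames of `2n-2` vectors.  More precisely there are two coordinates
and a nonempty relatively open set of frames none of which does weak phase retrieval.
-/

namespace Pool.Agent.Results.MP_e57dcf_an.NotDense

open scoped InnerProductSpace

/-- A family `X 0, ..., X (m-1)` of vectors of `ℝⁿ` is a frame: there are frame bounds. -/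
def IsFrame {n m : ℕ} (X : Fin m → EuclideanSpace ℝ (Fin n)) : Prop :=
  ∃ A B : ℝ, 0 < A ∧ A ≤ B ∧ ∀ x : EuclideanSpace ℝ (Fin n),
    A * ‖x‖ ^ 2 ≤ ∑ i, |⟪x, X i⟫_ℝ| ^ 2 ∧ ∑ i, |⟪x, X i⟫_ℝ| ^ 2 ≤ B * ‖x‖ ^ 2

/-- Two vectors weakly have the same phase. -/
def WeaklySamePhase {n : ℕ} (x y : EuclideanSpace ℝ (Fin n)) : Prop :=
  ∃ θ : ℝ, (θ = 1 ∨ θ = -1) ∧ ∀ k, x k * y k ≠ 0 → Real.sign (x k) = θ * Real.sign (y k)

/-- The family does weak phase retrieval. -/
def DoesWPR {n m : ℕ} (X : Fin m → EuclideanSpace ℝ (Fin n)) : Prop :=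
  ∀ x y : EuclideanSpace ℝ (Fin n), (∀ i, |⟪x, X i⟫_ℝ| = |⟪y, X i⟫_ℝ|) → WeaklySamePhase x y

/-- The set `F_{n,m}` of frames of `m` vectors of `ℝⁿ`. -/
def frames (n m : ℕ) : Set (Fin m → EuclideanSpace ℝ (Fin n)) := {X | IsFrame X}

/-- The set `W_n` of frames of `2n-2` vectors of `ℝⁿ` which do weak phase retrieval. -/
def weakFrames (n : ℕ) : Set (Fin (2 * n - 2) → EuclideanSpace ℝ (Fin n)) :=
  {X | IsFrame X ∧ DoesWPR X}

/-- generalized cross product of `m` vectors of `ℝ^(m+1)` -/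
noncomputable def cross {m : ℕ} (r : Fin m → EuclideanSpace ℝ (Fin (m + 1))) (k : Fin (m + 1)) :
    ℝ :=
  (-1) ^ (k : ℕ) * (Matrix.of fun i j => r i (k.succAbove j)).det

theorem cross_sum {m : ℕ} (r : Fin m → EuclideanSpace ℝ (Fin (m + 1)))
    (w : EuclideanSpace ℝ (Fin (m + 1))) :
    ∑ k, w k * cross r k =
      (Matrix.of (Fin.cons (fun k => w k) (fun i k => r i k) :
        Fin (m + 1) → Fin (m + 1) → ℝ)).det := by
  rw [Matrix.det_succ_row_zero]
  refine Finset.sum_congr rfl fun k _ => ?_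
  simp only [cross, Matrix.of_apply, Fin.cons_zero]
  have : (Matrix.of (Fin.cons (fun k => w k) (fun i k => r i k) :
        Fin (m + 1) → Fin (m + 1) → ℝ)).submatrix Fin.succ k.succAbove =
      Matrix.of fun i j => r i (k.succAbove j) := by
    ext i j
    simp [Matrix.submatrix]
  rw [this]
  ring

theorem cross_orth {m : ℕ} (r : Fin m → EuclideanSpace ℝ (Fin (m + 1))) (i : Fin m) :
    ∑ k, r i k * cross r k = 0 := by
  rw [cross_sum]
  refine Matrix.det_zero_of_row_eq (i := 0) (j := i.succ) (Fin.succ_ne_zero i).symm ?_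
  funext k
  simp

theorem cross_continuous {m : ℕ} (k : Fin (m + 1)) :
    Continuous fun r : Fin m → EuclideanSpace ℝ (Fin (m + 1)) => cross r k := by
  unfold cross
  refine continuous_const.mul (Continuous.matrix_det ?_)
  refine continuous_matrix fun i j => ?_
  simp only [Matrix.of_apply]
  fun_prop

/-- the standard basis without the vector `p` -/
noncomputable def std {m : ℕ} (p : Fin (m + 1)) : Fin m → EuclideanSpace ℝ (Fin (m + 1)) :=
  fun i => EuclideanSpace.single (p.succAbove i) 1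

theorem cross_std_self {m : ℕ} (p : Fin (m + 1)) : cross (std p) p = (-1) ^ (p : ℕ) := by
  have : (Matrix.of fun i j => std p i (p.succAbove j)) = (1 : Matrix (Fin m) (Fin m) ℝ) := by
    ext i j
    simp [std, Matrix.one_apply, eq_comm]
  simp [cross, this]

theorem cross_std_ne {m : ℕ} {p q : Fin (m + 1)} (h : q ≠ p) : cross (std p) q = 0 := by
  obtain ⟨i, hi⟩ := Fin.exists_succAbove_eq h
  have : (Matrix.of fun i j => std p i (q.succAbove j)).det = 0 := by
    refine Matrix.det_eq_zero_of_row_eq_zero i fun j => ?_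
    have : q.succAbove j ≠ p.succAbove i := by rw [hi]; exact Fin.succAbove_ne q j
    simp [std, this]
  simp [cross, this]

theorem key {m M : ℕ} (a b : Fin m → Fin M)
    (hab : ∀ i, (∃ j, a j = i) ∨ (∃ j, b j = i))
    (X : Fin M → EuclideanSpace ℝ (Fin (m + 1)))
    (h0 : |cross (fun j => X (b j)) 0| < |cross (fun j => X (a j)) 0|)
    (h1 : |cross (fun j => X (a j)) (Fin.last m)| < |cross (fun j => X (b j)) (Fin.last m)|) :
    ¬ DoesWPR X := by
  intro hW
  set u : EuclideanSpace ℝ (Fin (m + 1)) := WithLp.toLp 2 (cross fun j => X (a j)) with hu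
  set v : EuclideanSpace ℝ (Fin (m + 1)) := WithLp.toLp 2 (cross fun j => X (b j)) with hv
  have hua : ∀ j, ⟪u, X (a j)⟫_ℝ = 0 := by
    intro j
    have := cross_orth (fun j => X (a j)) j
    rw [PiLp.inner_apply]
    simpa [hu, mul_comm] using this
  have hvb : ∀ j, ⟪v, X (b j)⟫_ℝ = 0 := by
    intro j
    have := cross_orth (fun j => X (b j)) j
    rw [PiLp.inner_apply]
    simpa [hv, mul_comm] using this
  obtain ⟨θ, hθ, hs⟩ := hW (u + v) (u - v) (by
    intro i
    rcases hab i with ⟨j, rfl⟩ | ⟨j, rfl⟩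
    · rw [inner_add_left, inner_sub_left, hua]; simp
    · rw [inner_add_left, inner_sub_left, hvb]; simp)
  have e0 : 0 < (u + v) 0 * (u - v) 0 := by
    have : (cross (fun j => X (b j)) 0) ^ 2 < (cross (fun j => X (a j)) 0) ^ 2 :=
      sq_lt_sq.2 h0
    have e : (u + v) 0 * (u - v) 0 =
        (cross (fun j => X (a j)) 0) ^ 2 - (cross (fun j => X (b j)) 0) ^ 2 := by
      simp [hu, hv]; ring
    rw [e]; linarith
  have e1 : (u + v) (Fin.last m) * (u - v) (Fin.last m) < 0 := by
    have : (cross (fun j => X (a j)) (Fin.last m)) ^ 2 <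
        (cross (fun j => X (b j)) (Fin.last m)) ^ 2 := sq_lt_sq.2 h1
    have e : (u + v) (Fin.last m) * (u - v) (Fin.last m) =
        (cross (fun j => X (a j)) (Fin.last m)) ^ 2 -
          (cross (fun j => X (b j)) (Fin.last m)) ^ 2 := by
      simp [hu, hv]; ring
    rw [e]; linarith
  have s0 := hs 0 e0.ne'
  have s1 := hs (Fin.last m) e1.ne
  rcases hθ with rfl | rfl
  · -- opposite signs at the last coordinate
    rcases mul_neg_iff.1 e1 with ⟨p, q⟩ | ⟨p, q⟩
    · rw [Real.sign_of_pos p, Real.sign_of_neg q] at s1; norm_num at s1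
    · rw [Real.sign_of_neg p, Real.sign_of_pos q] at s1; norm_num at s1
  · rcases mul_pos_iff.1 e0 with ⟨p, q⟩ | ⟨p, q⟩
    · rw [Real.sign_of_pos p, Real.sign_of_pos q] at s0; norm_num at s0
    · rw [Real.sign_of_neg p, Real.sign_of_neg q] at s0; norm_num at s0

/-- **Full answer to Q1 (positive).** For every `n ≥ 2` the set `W_n` of weak phase retrievable
frames with `2n-2` vectors is not dense in the set `F_{n,2n-2}` of all frames with `2n-2`
vectors. -/
theorem result (n : ℕ) (hn : 2 ≤ n) :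
    ¬ (frames n (2 * n - 2) ⊆ closure (weakFrames n)) := by
  obtain ⟨m, rfl⟩ : ∃ m, n = m + 1 := ⟨n - 1, by omega⟩
  have hm : 1 ≤ m := by omega
  intro hsub
  let a : Fin m → Fin (2 * (m + 1) - 2) := fun j => ⟨j.1, by omega⟩
  let b : Fin m → Fin (2 * (m + 1) - 2) := fun j => ⟨m + j.1, by omega⟩
  have hab : ∀ i : Fin (2 * (m + 1) - 2), (∃ j, a j = i) ∨ (∃ j, b j = i) := by
    intro i
    by_cases h : i.1 < m
    · exact Or.inl ⟨⟨i.1, h⟩, rfl⟩
    · refine Or.inr ⟨⟨i.1 - m, by omega⟩, ?_⟩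
      apply Fin.ext
      simp only [b]
      omega
  let X : Fin (2 * (m + 1) - 2) → EuclideanSpace ℝ (Fin (m + 1)) := fun i =>
    if h : i.1 < m then std 0 ⟨i.1, h⟩ else std (Fin.last m) ⟨i.1 - m, by omega⟩
  have hXa : ∀ j, X (a j) = std 0 j := by
    intro j
    simp only [X, a]
    rw [dif_pos j.2]
  have hXb : ∀ j, X (b j) = std (Fin.last m) j := by
    intro j
    simp only [X, b]
    rw [dif_neg (by omega)]
    congr 1
    apply Fin.ext
    simp
  have hne : (0 : Fin (m + 1)) ≠ Fin.last m := by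
    intro h
    have := congrArg Fin.val h
    simp at this
    omega
  -- every basis vector occurs
  have hocc : ∀ k : Fin (m + 1), ∃ i, X i = EuclideanSpace.single k 1 := by
    intro k
    by_cases hk : k = 0
    · subst hk
      obtain ⟨j, hj⟩ := Fin.exists_succAbove_eq hne
      exact ⟨b j, by rw [hXb]; simp [std, hj]⟩
    · obtain ⟨j, hj⟩ := Fin.exists_succAbove_eq hk
      exact ⟨a j, by rw [hXa]; simp [std, hj]⟩
  have hall : ∀ i, ∃ k : Fin (m + 1), X i = EuclideanSpace.single k 1 := by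
    intro i
    rcases hab i with ⟨j, rfl⟩ | ⟨j, rfl⟩
    · exact ⟨_, hXa j⟩
    · exact ⟨_, hXb j⟩
  have hin : ∀ (x : EuclideanSpace ℝ (Fin (m + 1))) (k : Fin (m + 1)),
      |⟪x, EuclideanSpace.single k (1 : ℝ)⟫_ℝ| ^ 2 = x k ^ 2 := by
    intro x k
    rw [EuclideanSpace.inner_single_right]
    simp
  have hnorm : ∀ x : EuclideanSpace ℝ (Fin (m + 1)), ‖x‖ ^ 2 = ∑ k, x k ^ 2 := by
    intro x
    rw [EuclideanSpace.norm_sq_eq]
    simp
  have hframe : IsFrame X := by
    refine ⟨1, (2 * (m + 1) - 2 : ℕ) + 1, one_pos, by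
      have : (0 : ℝ) ≤ ((2 * (m + 1) - 2 : ℕ) : ℝ) := Nat.cast_nonneg _
      linarith, fun x => ⟨?_, ?_⟩⟩
    · rw [one_mul, hnorm]
      choose f hf using hocc
      have hinj : Function.Injective f := by
        intro k l hkl
        have := (hf k).symm.trans ((congrArg X hkl).trans (hf l))
        have h2 := congrArg (fun z : EuclideanSpace ℝ (Fin (m + 1)) => z k) this
        simp only [EuclideanSpace.single_apply] at h2
        by_contra hne'
        simp [hne'] at h2
      calc ∑ k, x k ^ 2 = ∑ k, |⟪x, X (f k)⟫_ℝ| ^ 2 := by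
            refine Finset.sum_congr rfl fun k _ => ?_
            rw [hf, hin]
        _ = ∑ i ∈ Finset.univ.map ⟨f, hinj⟩, |⟪x, X i⟫_ℝ| ^ 2 := by
            rw [Finset.sum_map]; rfl
        _ ≤ ∑ i, |⟪x, X i⟫_ℝ| ^ 2 :=
            Finset.sum_le_sum_of_subset_of_nonneg (Finset.subset_univ _)
              fun _ _ _ => by positivity
    · calc ∑ i, |⟪x, X i⟫_ℝ| ^ 2 ≤ ∑ _i : Fin (2 * (m + 1) - 2), ‖x‖ ^ 2 := by
            refine Finset.sum_le_sum fun i _ => ?_
            obtain ⟨k, hk⟩ := hall i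
            rw [hk, hin, hnorm]
            exact Finset.single_le_sum (f := fun k => x k ^ 2)
              (fun _ _ => by positivity) (Finset.mem_univ k)
        _ = ((2 * (m + 1) - 2 : ℕ) : ℝ) * ‖x‖ ^ 2 := by
            rw [Finset.sum_const, Finset.card_univ, Fintype.card_fin, nsmul_eq_mul]
        _ ≤ (((2 * (m + 1) - 2 : ℕ) : ℝ) + 1) * ‖x‖ ^ 2 := by
            have : 0 ≤ ‖x‖ ^ 2 := by positivity
            nlinarith
  have hcl := hsub (show X ∈ frames (m + 1) (2 * (m + 1) - 2) from hframe)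
  -- the open set
  let U : Set (Fin (2 * (m + 1) - 2) → EuclideanSpace ℝ (Fin (m + 1))) :=
    {Y | |cross (fun j => Y (b j)) 0| < |cross (fun j => Y (a j)) 0|} ∩
    {Y | |cross (fun j => Y (a j)) (Fin.last m)| < |cross (fun j => Y (b j)) (Fin.last m)|}
  have hc : ∀ (c : Fin m → Fin (2 * (m + 1) - 2)) (k : Fin (m + 1)),
      Continuous fun Y : Fin (2 * (m + 1) - 2) → EuclideanSpace ℝ (Fin (m + 1)) =>
        |cross (fun j => Y (c j)) k| := by
    intro c k
    refine ((cross_continuous k).comp ?_).abs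
    fun_prop
  have hU : IsOpen U :=
    (isOpen_lt (hc b 0) (hc a 0)).inter (isOpen_lt (hc a _) (hc b _))
  have hXU : X ∈ U := by
    have ea : (fun j => X (a j)) = std 0 := funext hXa
    have eb : (fun j => X (b j)) = std (Fin.last m) := funext hXb
    constructor
    · show |cross (fun j => X (b j)) 0| < |cross (fun j => X (a j)) 0|
      rw [ea, eb, cross_std_ne hne, cross_std_self]
      simp
    · show |cross (fun j => X (a j)) (Fin.last m)| < |cross (fun j => X (b j)) (Fin.last m)|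
      rw [ea, eb, cross_std_ne hne.symm, cross_std_self]
      simp
  obtain ⟨Y, hYU, hYW⟩ := mem_closure_iff.1 hcl U hU hXU
  exact key a b hab Y hYU.1 hYU.2 hYW.2

end Pool.Agent.Results.MP_e57dcf_an.NotDense
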